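import Pool.Agent.N929.OM.Stm

/-!
# Project OM, task MANY: good patterns are frequent on the path, general domains
(helper239, adapted from the file of helper195 for project ON)
-/

set_option autoImplicit false

namespace Pool.Agent.N239.OM

open Finset Pool.Agent.N929.OM
open Pool.Agent.N929.ON (St rt front Val step)
open scoped Classical

noncomputable section

/-! ### the pattern -/

/-- the `+` faces of the pattern -/
def plusF (s : St) : Finset (ℤ × ℤ) := (pls s).toFinset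

/-- the `-` faces of the pattern -/
def minusF (s : St) : Finset (ℤ × ℤ) := (mns s).toFinset

theorem good_iff (σ : ℤ × ℤ → Bool) (s : St) :
    Good σ s ↔ (∀ f ∈ plusF s, σ f = true) ∧ ∀ f ∈ minusF s, σ f = false := by
  unfold Good plusF minusF
  simp only [List.mem_toFinset]

theorem Q_mono {k k' : ℤ} (h : k ≤ k') {f : ℤ × ℤ} (hf : Q k f) : Q k' f := by
  unfold Q at hf ⊢
  omega

theorem card_pat (s : St) : (plusF s ∪ minusF s).card ≤ 7 := by
  refine (card_union_le _ _).trans ?_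
  have h1 : (plusF s).card ≤ (pls s).length := List.toFinset_card_le _
  have h2 : (minusF s).card ≤ (mns s).length := List.toFinset_card_le _
  have h3 : (pls s).length + (mns s).length = 7 := by
    unfold pls mns
    split_ifs <;> simp
  omega

/-- the properties of the pattern at a hitting state -/
structure Ok (V : Finset (ℤ × ℤ)) (η : ℤ × ℤ → Bool) (k : ℤ) (s : St) : Prop where
  pl : ∀ f ∈ plusF s, Q (k + 3) f ∧ ¬ Q k f
  mi : ∀ f ∈ minusF s, Q (k + 3) f ∧ ¬ Q k f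
  di : ∀ f ∈ plusF s, f ∉ minusF s
  po : ∀ f ∈ plusF s, f ∉ V → η f = true
  mo : ∀ f ∈ minusF s, f ∉ V → η f = false

theorem ok_of (hhit : S_HIT) (hpat : S_PAT) {V : Finset (ℤ × ℤ)} {η σ : ℤ × ℤ → Bool} {R : ℕ}
    (hV : Flat V η R) (hσ : Bdy V η σ) {k : ℤ} (hk : 1 ≤ k) (hkR : k + 3 ≤ R) {i : ℕ} {s : St}
    (h : Hit σ k i s) : Ok V η k s := by
  obtain ⟨-, h1, h2, h3⟩ := hhit.2.1 V η σ R hV hσ k hk (by omega) i s h
  obtain ⟨p1, -, -, p4, p5, -, p7⟩ := hpat k s hk h1 h2 h3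
  have hQ : ∀ f : ℤ × ℤ, Q (k + 3) f → f ∉ V → f.2 ≤ 0 ∧ η f = decide (f.1 ≤ 0) := by
    intro f hf hfV
    have hfl := hV f (Q_mono hkR hf)
    have h0 : f.2 ≤ 0 := by
      by_contra hc
      exact hfV (hfl.1 (by omega))
    exact ⟨h0, (hfl.2 h0).2⟩
  refine ⟨?_, ?_, ?_, ?_, ?_⟩
  · intro f hf
    rw [plusF, List.mem_toFinset] at hf
    exact p1 f (List.mem_append_left _ (List.mem_append_left _ hf))
  · intro f hf
    rw [minusF, List.mem_toFinset] at hf
    exact p1 f (List.mem_append_left _ (List.mem_append_right _ hf))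
  · intro f hf hf'
    rw [plusF, List.mem_toFinset] at hf
    rw [minusF, List.mem_toFinset] at hf'
    exact (List.nodup_append'.1 p7).2.2 hf hf'
  · intro f hf hfV
    rw [plusF, List.mem_toFinset] at hf
    obtain ⟨h4, h5⟩ := hQ f (p1 f (List.mem_append_left _ (List.mem_append_left _ hf))).1 hfV
    rw [h5]
    exact decide_eq_true (p4 f hf h4)
  · intro f hf hfV
    rw [minusF, List.mem_toFinset] at hf
    obtain ⟨h4, h5⟩ := hQ f (p1 f (List.mem_append_left _ (List.mem_append_right _ hf))).1 hfV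
    rw [h5]
    have := p5 f hf h4
    exact decide_eq_false (by omega)

/-- the set with the pattern -/
def Ph (V : Finset (ℤ × ℤ)) (s : St) (S : Finset (ℤ × ℤ)) : Finset (ℤ × ℤ) :=
  (S \ minusF s) ∪ (plusF s ∩ V)

theorem Ph_sub {V : Finset (ℤ × ℤ)} {s : St} {S : Finset (ℤ × ℤ)} (hS : S ⊆ V) :
    Ph V s S ⊆ V := by
  unfold Ph
  refine union_subset (sdiff_subset.trans hS) inter_subset_right

theorem mem_Ph_of {V : Finset (ℤ × ℤ)} {s : St} {S : Finset (ℤ × ℤ)} {f : ℤ × ℤ}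
    (h : f ∉ plusF s ∪ minusF s) : f ∈ Ph V s S ↔ f ∈ S := by
  rw [mem_union, not_or] at h
  unfold Ph
  rw [mem_union, mem_sdiff, mem_inter]
  tauto

theorem cfg_Ph_of {V : Finset (ℤ × ℤ)} {η : ℤ × ℤ → Bool} {s : St} {S : Finset (ℤ × ℤ)}
    {f : ℤ × ℤ} (h : f ∉ plusF s ∪ minusF s) : cfg V η (Ph V s S) f = cfg V η S f := by
  unfold cfg
  split_ifs
  · rw [decide_eq_decide]
    exact mem_Ph_of h
  · rfl

theorem cfg_Ph_row {V : Finset (ℤ × ℤ)} {η : ℤ × ℤ → Bool} {k : ℤ} {s : St} (hok : Ok V η k s)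
    {S : Finset (ℤ × ℤ)} {f : ℤ × ℤ} (h : Q k f) : cfg V η (Ph V s S) f = cfg V η S f := by
  apply cfg_Ph_of
  rw [mem_union, not_or]
  exact ⟨fun h' => (hok.pl f h').2 h, fun h' => (hok.mi f h').2 h⟩

theorem good_Ph {V : Finset (ℤ × ℤ)} {η : ℤ × ℤ → Bool} {k : ℤ} {s : St} (hok : Ok V η k s)
    {S : Finset (ℤ × ℤ)} : Good (cfg V η (Ph V s S)) s := by
  rw [good_iff]
  constructor
  · intro f hf
    unfold cfg
    split_ifs with hD
    · apply decide_eq_true
      unfold Ph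
      rw [mem_union, mem_inter]
      exact Or.inr ⟨hf, hD⟩
    · exact hok.po f hf hD
  · intro f hf
    unfold cfg
    split_ifs with hD
    · apply decide_eq_false
      unfold Ph
      rw [mem_union, mem_sdiff, mem_inter, not_or]
      exact ⟨fun h => h.2 hf, fun h => hok.di f h.1 hf⟩
    · exact hok.mo f hf hD

theorem bdy_cfg (V : Finset (ℤ × ℤ)) (η : ℤ × ℤ → Bool) (S : Finset (ℤ × ℤ)) :
    Bdy V η (cfg V η S) := by
  intro f hf
  unfold cfg
  rw [if_neg hf]

/-! ### flips -/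

theorem flip_cfg {V : Finset (ℤ × ℤ)} {η : ℤ × ℤ → Bool} {S : Finset (ℤ × ℤ)} {f : ℤ × ℤ}
    (hf : f ∈ V) :
    Pool.Agent.N929.ON.flip f (cfg V η S) = cfg V η (symmDiff S {f}) := by
  funext g
  unfold Pool.Agent.N929.ON.flip
  by_cases hg : g = f
  · subst hg
    rw [Function.update_self]
    unfold cfg
    rw [if_pos hf, if_pos hf]
    by_cases hS : g ∈ S
    · have h1 : g ∉ symmDiff S {g} := by
        rw [mem_symmDiff]
        simp [hS]
      rw [decide_eq_true hS, decide_eq_false h1]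
      rfl
    · have h1 : g ∈ symmDiff S {g} := by
        rw [mem_symmDiff]
        simp [hS]
      rw [decide_eq_false hS, decide_eq_true h1]
      rfl
  · rw [Function.update_of_ne hg]
    unfold cfg
    split_ifs
    · rw [decide_eq_decide, mem_symmDiff, mem_singleton]
      tauto
    · rfl

theorem wt_symm {V : Finset (ℤ × ℤ)} {η : ℤ × ℤ → Bool} {n x κ : ℝ} (hκ : 0 < κ)
    (h : ∀ σ : ℤ × ℤ → Bool,
      ∀ f ∈ V, κ * wt V n x σ ≤ wt V n x (Pool.Agent.N929.ON.flip f σ))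
    (S D : Finset (ℤ × ℤ)) (hD : D ⊆ V) :
    κ ^ D.card * wt V n x (cfg V η S) ≤ wt V n x (cfg V η (symmDiff S D)) := by
  induction D using Finset.induction_on with
  | empty =>
    rw [card_empty, pow_zero, one_mul]
    have h1 : symmDiff S ∅ = S := symmDiff_bot S
    rw [h1]
  | insert f D hf ih =>
    rw [card_insert_of_notMem hf, pow_succ]
    have hfD : f ∈ V := hD (mem_insert_self f D)
    have ih' := ih fun g hg => hD (mem_insert_of_mem hg)
    have h1 := h (cfg V η (symmDiff S D)) f hfD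
    rw [flip_cfg hfD] at h1
    have h2 : symmDiff (symmDiff S D) {f} = symmDiff S (insert f D) := by
      rw [symmDiff_assoc]
      congr 1
      ext g
      rw [mem_symmDiff, mem_singleton, mem_insert]
      constructor
      · tauto
      · rintro (rfl | h)
        · exact Or.inr ⟨rfl, hf⟩
        · refine Or.inl ⟨h, fun h' => hf (h' ▸ h)⟩
    rw [h2] at h1
    calc κ ^ D.card * κ * wt V n x (cfg V η S)
        = κ * (κ ^ D.card * wt V n x (cfg V η S)) := by ring
      _ ≤ κ * wt V n x (cfg V η (symmDiff S D)) := mul_le_mul_of_nonneg_left ih' hκ.le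
      _ ≤ _ := h1

theorem symm_Ph {V : Finset (ℤ × ℤ)} {s : St} {S : Finset (ℤ × ℤ)} :
    symmDiff S (Ph V s S) ⊆ plusF s ∪ minusF s := by
  intro f hf
  by_contra h
  rw [mem_symmDiff, mem_Ph_of h] at hf
  tauto

/-! ### sums over fibres -/

theorem map_sum_le {ι : Type} [DecidableEq ι] (P G : Finset ι) (Φ : ι → ι) (v : ι → ℝ) (c : ℝ)
    (N : ℕ) (hv : ∀ T ∈ G, 0 ≤ v T) (hΦ : ∀ S ∈ P, Φ S ∈ G) (hw : ∀ S ∈ P, v S ≤ c * v (Φ S))
    (hc : 0 ≤ c) (hfib : ∀ T ∈ G, (P.filter (fun S => Φ S = T)).card ≤ N) :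
    ∑ S ∈ P, v S ≤ c * N * ∑ T ∈ G, v T := by
  calc ∑ S ∈ P, v S ≤ ∑ S ∈ P, c * v (Φ S) := sum_le_sum hw
    _ = ∑ T ∈ G, ∑ S ∈ P with Φ S = T, c * v (Φ S) :=
        (sum_fiberwise_of_maps_to hΦ _).symm
    _ ≤ ∑ T ∈ G, c * N * v T := by
        refine sum_le_sum fun T hT => ?_
        have h1 : ∑ S ∈ P with Φ S = T, c * v (Φ S) =
            (P.filter fun S => Φ S = T).card * (c * v T) := by
          rw [← nsmul_eq_mul, ← sum_const]
          refine sum_congr rfl fun S hS => ?_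
          rw [(mem_filter.1 hS).2]
        rw [h1]
        have h2 : ((P.filter fun S => Φ S = T).card : ℝ) ≤ N := by exact_mod_cast hfib T hT
        have h3 : 0 ≤ c * v T := mul_nonneg hc (hv T hT)
        calc _ ≤ (N : ℝ) * (c * v T) := mul_le_mul_of_nonneg_right h2 h3
          _ = _ := by ring
    _ = _ := by rw [mul_sum]

/-! ### the scales -/

/-- the path finds a good pattern when it leaves `Q (3 j + 1)` -/
def Gd (V : Finset (ℤ × ℤ)) (η : ℤ × ℤ → Bool) (j : ℕ) (S : Finset (ℤ × ℤ)) : Prop :=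
  ∃ i s, Hit (cfg V η S) (3 * j + 1 : ℕ) i s ∧ Good (cfg V η S) s

/-- the scales below `j` -/
def Jj (V : Finset (ℤ × ℤ)) (η : ℤ × ℤ → Bool) (j : ℕ) (S : Finset (ℤ × ℤ)) : Finset ℕ :=
  (range j).filter fun j' => Gd V η j' S

theorem card_Jj_succ (V : Finset (ℤ × ℤ)) (η : ℤ × ℤ → Bool) (j : ℕ) (S : Finset (ℤ × ℤ)) :
    (Jj V η (j + 1) S).card = (Jj V η j S).card + if Gd V η j S then 1 else 0 := by
  unfold Jj
  rw [range_add_one, filter_insert]
  split_ifs with h
  · rw [card_insert_of_notMem]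
    simp
  · rw [add_zero]

/-- the scales below `j` see only the faces of `Q (3 j + 1)` -/
theorem Jj_congr (hhit : S_HIT) (hpat : S_PAT) {V : Finset (ℤ × ℤ)} {η : ℤ × ℤ → Bool} {R : ℕ}
    (hV : Flat V η R) {j : ℕ} (hj : 3 * j + 1 ≤ R) {S T : Finset (ℤ × ℤ)}
    (h : ∀ f : ℤ × ℤ, Q (3 * j + 1 : ℕ) f → cfg V η S f = cfg V η T f) :
    Jj V η j S = Jj V η j T := by
  have key : ∀ S T : Finset (ℤ × ℤ),
      (∀ f : ℤ × ℤ, Q (3 * j + 1 : ℕ) f → cfg V η S f = cfg V η T f) →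
      ∀ j' < j, Gd V η j' S → Gd V η j' T := by
    rintro S T h j' hj' ⟨i, s, h1, h2⟩
    have h3 : ((3 * j' + 1 : ℕ) : ℤ) + 3 ≤ ((3 * j + 1 : ℕ) : ℤ) := by
      push_cast
      omega
    have hok : Ok V η (3 * j' + 1 : ℕ) s := ok_of hhit hpat hV (bdy_cfg V η S)
      (by push_cast; omega) (by push_cast; omega) h1
    refine ⟨i, s, (hhit.2.2.1 _ _ _ i s h1 fun f hf => (h f (Q_mono (by omega) hf)).symm).1, ?_⟩
    rw [good_iff] at h2 ⊢
    constructor
    · intro f hf
      rw [← h f (Q_mono h3 (hok.pl f hf).1)]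
      exact h2.1 f hf
    · intro f hf
      rw [← h f (Q_mono h3 (hok.mi f hf).1)]
      exact h2.2 f hf
  unfold Jj
  ext j'
  rw [mem_filter, mem_filter, mem_range]
  constructor
  · rintro ⟨h1, h2⟩
    exact ⟨h1, key S T h j' h1 h2⟩
  · rintro ⟨h1, h2⟩
    exact ⟨h1, key T S (fun f hf => (h f hf).symm) j' h1 h2⟩

/-- **one step** -/
theorem one_step (hhit : S_HIT) (hpat : S_PAT) {n x κ : ℝ} (hκ : 0 < κ) (hκ1 : κ ≤ 1)
    {V : Finset (ℤ × ℤ)} {η : ℤ × ℤ → Bool} {R : ℕ} (hV : Flat V η R)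
    (hwt : ∀ σ : ℤ × ℤ → Bool, 0 < wt V n x σ ∧
      ∀ f ∈ V, κ * wt V n x σ ≤ wt V n x (Pool.Agent.N929.ON.flip f σ)) {j : ℕ}
    (hj : 3 * j + 4 ≤ R) :
    ∑ S ∈ V.powerset, wt V n x (cfg V η S) * (1 / 2) ^ (Jj V η (j + 1) S).card ≤
      (1 - κ ^ 7 / 256) *
      ∑ S ∈ V.powerset, wt V n x (cfg V η S) * (1 / 2) ^ (Jj V η j S).card := by
  set P := V.powerset with hP
  set G := P.filter (fun S => Gd V η j S) with hG
  let v : Finset (ℤ × ℤ) → ℝ := fun S =>
    wt V n x (cfg V η S) * (1 / 2) ^ (Jj V η j S).card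
  have hv0 : ∀ S, 0 ≤ v S := fun S =>
    mul_nonneg (hwt _).1.le (by positivity)
  have hhits : ∀ S : Finset (ℤ × ℤ), ∃ z : St, ∃ i, Hit (cfg V η S) (3 * j + 1 : ℕ) i z := by
    intro S
    obtain ⟨i, z, h1, -⟩ := hhit.1 V η _ R hV (bdy_cfg V η S) ((3 * j + 1 : ℕ) : ℤ)
      (by push_cast; omega) (by push_cast; omega)
    exact ⟨z, i, h1⟩
  choose z hzi using hhits
  have hok : ∀ S, Ok V η (3 * j + 1 : ℕ) (z S) := by
    intro S
    obtain ⟨i, hi⟩ := hzi S
    exact ok_of hhit hpat hV (bdy_cfg V η S) (by push_cast; omega) (by push_cast; omega) hi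
  let Φ : Finset (ℤ × ℤ) → Finset (ℤ × ℤ) := fun S => Ph V (z S) S
  -- the Hit of the image
  have hΦhit : ∀ S, ∃ i, Hit (cfg V η (Φ S)) (3 * j + 1 : ℕ) i (z S) := by
    intro S
    obtain ⟨i, hi⟩ := hzi S
    exact ⟨i, (hhit.2.2.1 _ _ _ i (z S) hi fun f hf => cfg_Ph_row (hok S) hf).1⟩
  have hΦgood : ∀ S, Good (cfg V η (Φ S)) (z S) := fun S => good_Ph (hok S)
  have hΦG : ∀ S ∈ P, Φ S ∈ G := by
    intro S hS
    rw [hG, mem_filter, hP, mem_powerset]
    obtain ⟨i, hi⟩ := hΦhit S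
    exact ⟨Ph_sub (mem_powerset.1 hS), i, z S, hi, hΦgood S⟩
  have hzΦ : ∀ S, z (Φ S) = z S := by
    intro S
    obtain ⟨i, hi⟩ := hΦhit S
    obtain ⟨i', hi'⟩ := hzi (Φ S)
    exact (hhit.2.2.2 _ _ _ _ _ _ hi' hi).2
  have hΦJ : ∀ S, Jj V η j (Φ S) = Jj V η j S := fun S =>
    Jj_congr hhit hpat hV (by omega) fun f hf => cfg_Ph_row (hok S) hf
  have hΦw : ∀ S ∈ P, v S ≤ (κ ^ 7)⁻¹ * v (Φ S) := by
    intro S hS
    have hD : symmDiff S (Φ S) ⊆ V := by
      intro f hf
      rw [mem_symmDiff] at hf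
      rcases hf with hf | hf
      · exact mem_powerset.1 hS hf.1
      · exact Ph_sub (mem_powerset.1 hS) hf.1
    have h1 := wt_symm (η := η) hκ (fun σ => (hwt σ).2) S (symmDiff S (Φ S)) hD
    rw [symmDiff_symmDiff_cancel_left] at h1
    have h2 : (symmDiff S (Φ S)).card ≤ 7 := (card_le_card symm_Ph).trans (card_pat _)
    have h3 : κ ^ 7 ≤ κ ^ (symmDiff S (Φ S)).card := pow_le_pow_of_le_one hκ.le hκ1 h2
    have h4 : 0 < wt V n x (cfg V η S) := (hwt _).1
    have h5 : κ ^ 7 * wt V n x (cfg V η S) ≤ wt V n x (cfg V η (Φ S)) :=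
      (mul_le_mul_of_nonneg_right h3 h4.le).trans h1
    have h6 : 0 < κ ^ 7 := by positivity
    show wt V n x (cfg V η S) * (1 / 2) ^ (Jj V η j S).card ≤
      (κ ^ 7)⁻¹ * (wt V n x (cfg V η (Φ S)) * (1 / 2) ^ (Jj V η j (Φ S)).card)
    rw [hΦJ, ← mul_assoc]
    refine mul_le_mul_of_nonneg_right ?_ (by positivity)
    rw [inv_mul_eq_div, le_div_iff₀ h6]
    linarith
  have hfib : ∀ T ∈ G, (P.filter (fun S => Φ S = T)).card ≤ 128 := by
    intro T _
    set pat := plusF (z T) ∪ minusF (z T) with hpat'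
    have h1 : (P.filter (fun S => Φ S = T)).card ≤ pat.powerset.card := by
      refine card_le_card_of_injOn (fun S => S ∩ pat) ?_ ?_
      · intro S _
        exact mem_coe.2 (mem_powerset.2 inter_subset_right)
      · intro S hS S' hS' hSS
        have hS1 := (mem_filter.1 (mem_coe.1 hS)).2
        have hS1' := (mem_filter.1 (mem_coe.1 hS')).2
        have e1 : z T = z S := by rw [← hS1, hzΦ]
        have e1' : z T = z S' := by rw [← hS1', hzΦ]
        ext f
        by_cases hf : f ∈ pat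
        · have h2 := congrArg (fun A : Finset (ℤ × ℤ) => f ∈ A) hSS
          simp only [mem_inter, hf, and_true] at h2
          exact Eq.to_iff h2
        · have h2 : f ∈ Φ S ↔ f ∈ S := by
            apply mem_Ph_of
            rw [← e1]
            exact hf
          have h2' : f ∈ Φ S' ↔ f ∈ S' := by
            apply mem_Ph_of
            rw [← e1']
            exact hf
          rw [← h2, ← h2', hS1, hS1']
    refine h1.trans ?_
    rw [card_powerset]
    calc 2 ^ pat.card ≤ 2 ^ 7 := Nat.pow_le_pow_right (by norm_num) (card_pat _)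
      _ = 128 := by norm_num
  have hmain := map_sum_le P G Φ v ((κ ^ 7)⁻¹) 128 (fun T _ => hv0 T) hΦG hΦw (by positivity) hfib
  have hκ7 : 0 < κ ^ 7 := by positivity
  -- the good sets carry a part of the sum
  have hG1 : κ ^ 7 / 128 * ∑ S ∈ P, v S ≤ ∑ T ∈ G, v T := by
    have h1 : ∑ S ∈ P, v S ≤ (128 / κ ^ 7) * ∑ T ∈ G, v T := by
      calc _ ≤ _ := hmain
        _ = _ := by push_cast; ring
    calc κ ^ 7 / 128 * ∑ S ∈ P, v S ≤ κ ^ 7 / 128 * ((128 / κ ^ 7) * ∑ T ∈ G, v T) :=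
          mul_le_mul_of_nonneg_left h1 (by positivity)
      _ = ∑ T ∈ G, v T := by
          field_simp
  have hsplit : ∑ S ∈ P, wt V n x (cfg V η S) * (1 / 2) ^ (Jj V η (j + 1) S).card =
      ∑ S ∈ P, v S - 1 / 2 * ∑ T ∈ G, v T := by
    rw [hG, sum_filter, mul_sum, ← sum_sub_distrib]
    refine sum_congr rfl fun S _ => ?_
    rw [card_Jj_succ]
    show _ = wt V n x (cfg V η S) * (1 / 2) ^ (Jj V η j S).card -
      1 / 2 * (if Gd V η j S then
        wt V n x (cfg V η S) * (1 / 2) ^ (Jj V η j S).card else 0)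
    split_ifs
    · rw [pow_succ]
      ring
    · rw [add_zero]
      ring
  rw [hsplit]
  show ∑ S ∈ P, v S - 1 / 2 * ∑ T ∈ G, v T ≤ (1 - κ ^ 7 / 256) * ∑ S ∈ P, v S
  linarith

/-- **MANY** -/
theorem many (hhit : S_HIT) (hpat : S_PAT) (hfe : S_FE) : S_MANY := by
  intro n x hn hx
  obtain ⟨κ₀, hκ₀, hfe'⟩ := hfe n x hn hx
  set κ : ℝ := min κ₀ 1 with hκdef
  have hκ : 0 < κ := by positivity
  have hκ1 : κ ≤ 1 := min_le_right _ _
  have hκκ : κ ≤ κ₀ := min_le_left _ _
  set p : ℝ := κ ^ 7 / 128 with hp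
  have hp0 : 0 < p := by positivity
  have hp1 : p ≤ 1 := by
    rw [hp, div_le_one (by norm_num)]
    exact (pow_le_one₀ hκ.le hκ1).trans (by norm_num)
  set C : ℝ := 12 / p with hC
  have hC0 : 0 < C := by positivity
  have hC12 : 12 ≤ C := by
    rw [hC, le_div_iff₀ hp0]
    linarith
  refine ⟨C, by linarith, ?_⟩
  intro V η R hR hV
  have hwt : ∀ σ : ℤ × ℤ → Bool, 0 < wt V n x σ ∧
      ∀ f ∈ V, κ * wt V n x σ ≤ wt V n x (Pool.Agent.N929.ON.flip f σ) := by
    intro σ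
    obtain ⟨-, h1, h2⟩ := hfe' V σ
    exact ⟨h1, fun f hf => (mul_le_mul_of_nonneg_right hκκ h1.le).trans (h2 f hf)⟩
  set Z : ℝ := ∑ S ∈ V.powerset, wt V n x (cfg V η S) with hZ
  have hZ0 : 0 ≤ Z := sum_nonneg fun S _ => (hwt _).1.le
  have hq0 : 0 ≤ 1 - κ ^ 7 / 256 := by
    have := pow_le_one₀ (n := 7) hκ.le hκ1
    linarith
  have hind : ∀ j : ℕ, 3 * j + 1 ≤ R →
      ∑ S ∈ V.powerset, wt V n x (cfg V η S) * (1 / 2) ^ (Jj V η j S).card ≤
      (1 - κ ^ 7 / 256) ^ j * Z := by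
    intro j
    induction j with
    | zero =>
      intro _
      rw [pow_zero, one_mul, hZ]
      refine sum_le_sum fun S _ => ?_
      have : (Jj V η 0 S).card = 0 := by simp [Jj]
      rw [this, pow_zero, mul_one]
    | succ j ih =>
      intro hj
      refine (one_step hhit hpat hκ hκ1 hV hwt (by omega)).trans ?_
      rw [pow_succ (1 - κ ^ 7 / 256) j, mul_comm ((1 - κ ^ 7 / 256) ^ j), mul_assoc]
      exact mul_le_mul_of_nonneg_left (ih (by omega)) hq0
  set m : ℕ := (R - 1) / 3 with hmdef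
  have hm := hind m (by omega)
  -- Markov
  have hJJ : ∀ S, JJ V η R S = Jj V η m S := by
    intro S
    unfold JJ Jj Gd
    ext j
    rw [mem_filter, mem_filter, mem_range, mem_range]
    constructor
    · rintro ⟨h1, h2, h3⟩
      exact ⟨by omega, h3⟩
    · rintro ⟨h1, h2⟩
      exact ⟨by omega, by omega, h2⟩
  have hlog2 : 0 < Real.log 2 := Real.log_pos (by norm_num)
  have hlog21 : Real.log 2 ≤ 1 := by
    have := Real.log_two_lt_d9
    norm_num at this ⊢
    linarith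
  have hmark : ∑ S ∈ V.powerset.filter (fun S => C * ((JJ V η R S).card : ℝ) < R),
      wt V n x (cfg V η S) ≤ Real.exp (Real.log 2 * (R / C)) *
      ∑ S ∈ V.powerset,
        wt V n x (cfg V η S) * (1 / 2) ^ (Jj V η m S).card := by
    rw [sum_filter, mul_sum]
    refine sum_le_sum fun S _ => ?_
    have hw := (hwt (cfg V η S)).1
    split_ifs with h
    · rw [hJJ] at h
      set k := (Jj V η m S).card with hk
      have h1 : (k : ℝ) ≤ R / C := by
        rw [le_div_iff₀ hC0]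
        linarith
      have h2 : 1 ≤ Real.exp (Real.log 2 * (R / C)) * (1 / 2) ^ k := by
        have h3 : ((1 : ℝ) / 2) ^ k = Real.exp (-(Real.log 2 * k)) := by
          rw [Real.exp_neg, mul_comm, Real.exp_nat_mul, Real.exp_log (by norm_num)]
          rw [one_div, inv_pow]
        rw [h3, ← Real.exp_add]
        apply Real.one_le_exp
        nlinarith
      calc wt V n x (cfg V η S) = 1 * wt V n x (cfg V η S) := (one_mul _).symm
        _ ≤ (Real.exp (Real.log 2 * (R / C)) * (1 / 2) ^ k) * wt V n x (cfg V η S) :=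
            mul_le_mul_of_nonneg_right h2 hw.le
        _ = _ := by ring
    · positivity
  refine hmark.trans ?_
  have h1 : (1 - κ ^ 7 / 256) ^ m ≤ Real.exp (-(p / 2) * (m : ℕ)) := by
    have h2 : 1 - κ ^ 7 / 256 ≤ Real.exp (-(p / 2)) := by
      have := Real.add_one_le_exp (-(p / 2))
      have h3 : κ ^ 7 / 256 = p / 2 := by rw [hp]; ring
      linarith
    calc (1 - κ ^ 7 / 256) ^ m ≤ Real.exp (-(p / 2)) ^ m := pow_le_pow_left₀ hq0 h2 _
      _ = _ := by
        rw [← Real.exp_nat_mul]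
        congr 1
        ring
  have h4 : ((R : ℝ) / 3 - 1) ≤ (m : ℝ) := by
    have h5 : R ≤ 3 * m + 3 := by omega
    have h6 : (R : ℝ) ≤ 3 * (m : ℝ) + 3 := by exact_mod_cast h5
    linarith
  have h7 : Real.exp (-(p / 2) * (m : ℕ)) ≤ Real.exp (p / 2 - p / 6 * R) := by
    apply Real.exp_le_exp.2
    nlinarith
  have hL0 : (0 : ℝ) ≤ R := Nat.cast_nonneg R
  calc Real.exp (Real.log 2 * (R / C)) *
      ∑ S ∈ V.powerset,
        wt V n x (cfg V η S) * (1 / 2) ^ (Jj V η m S).card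
      ≤ Real.exp (Real.log 2 * (R / C)) * (Real.exp (p / 2 - p / 6 * R) * Z) := by
        refine mul_le_mul_of_nonneg_left (hm.trans ?_) (Real.exp_pos _).le
        exact mul_le_mul_of_nonneg_right (h1.trans h7) hZ0
    _ = Real.exp (Real.log 2 * (R / C) + (p / 2 - p / 6 * R)) * Z := by
        rw [Real.exp_add, mul_assoc]
    _ ≤ (C * Real.exp (-((R : ℝ) / C))) * Z := by
        refine mul_le_mul_of_nonneg_right ?_ hZ0
        have h8 : p / 6 * R = 2 * (R / C) := by
          rw [hC]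
          field_simp
          ring
        have h9 : Real.log 2 * (R / C) + (p / 2 - p / 6 * R) ≤ 1 / 2 + -((R : ℝ) / C) := by
          rw [h8]
          have h10 : 0 ≤ (R : ℝ) / C := by positivity
          nlinarith
        have h11 : Real.exp (1 / 2) ≤ C := by
          have h12 : Real.exp (1 / 2) ≤ Real.exp 1 := Real.exp_le_exp.2 (by norm_num)
          have := Real.exp_one_lt_d9
          linarith
        calc Real.exp (Real.log 2 * (R / C) + (p / 2 - p / 6 * R))
            ≤ Real.exp (1 / 2 + -((R : ℝ) / C)) := Real.exp_le_exp.2 h9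
          _ = Real.exp (1 / 2) * Real.exp (-((R : ℝ) / C)) := Real.exp_add _ _
          _ ≤ C * Real.exp (-((R : ℝ) / C)) := mul_le_mul_of_nonneg_right h11 (Real.exp_pos _).le

end

end Pool.Agent.N239.OM
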